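import Pool.Agent.PSV.StmtsS

/-! PSV, row TPQ: change of the point, with explicit constants. -/

set_option autoImplicit false

namespace Pool.Agent.PSV.H45

open Polynomial Pool.Agent.MTN

/-- coefficients of powers of `X - k` -/
theorem coeff_bd (D : ℕ) {k : ℤ} (hk : |k| ≤ D) : ∀ i n : ℕ,
    |((((X - C k : ℤ[X]) ^ i).coeff n : ℤ) : ℝ)| ≤ ((D : ℝ) + 1) ^ i := by
  have hkR : |(k : ℝ)| ≤ D := by exact_mod_cast hk
  have hD0 : (0 : ℝ) ≤ D := Nat.cast_nonneg D
  intro i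
  induction i with
  | zero =>
    intro n
    rw [pow_zero, pow_zero, coeff_one]
    split_ifs <;> simp
  | succ i ih =>
    intro n
    have hb : |(k : ℝ)| * |((((X - C k : ℤ[X]) ^ i).coeff n : ℤ) : ℝ)| ≤ D * ((D : ℝ) + 1) ^ i :=
      mul_le_mul hkR (ih n) (abs_nonneg _) hD0
    rcases n with _ | n
    · rw [pow_succ, mul_sub, coeff_sub, coeff_mul_X_zero, coeff_mul_C, zero_sub]
      push_cast
      rw [abs_neg, abs_mul, mul_comm]
      refine hb.trans ?_
      rw [pow_succ]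
      nlinarith [pow_nonneg (by linarith : (0 : ℝ) ≤ (D : ℝ) + 1) i]
    · rw [pow_succ, mul_sub, coeff_sub, coeff_mul_X, coeff_mul_C]
      push_cast
      refine (abs_sub _ _).trans ?_
      rw [abs_mul, mul_comm (|((((X - C k : ℤ[X]) ^ i).coeff (n + 1) : ℤ) : ℝ)|)]
      refine (add_le_add (ih n) hb).trans ?_
      rw [pow_succ]
      nlinarith [pow_nonneg (by linarith : (0 : ℝ) ≤ (D : ℝ) + 1) i]

/-- a bound for the coefficients of the translates -/
noncomputable def cst (m D : ℕ) : ℝ := ((D : ℝ) + 2) ^ (2 * m)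

theorem le_cst (m D : ℕ) {k : ℤ} (hk : |k| ≤ D) {n : ℕ} :
    ∑ i ∈ Finset.range (m + 1), |((((X - C k : ℤ[X]) ^ i).coeff n : ℤ) : ℝ)| ≤ cst m D := by
  have hD0 : (0 : ℝ) ≤ D := Nat.cast_nonneg D
  calc ∑ i ∈ Finset.range (m + 1), |((((X - C k : ℤ[X]) ^ i).coeff n : ℤ) : ℝ)|
      ≤ ∑ _i ∈ Finset.range (m + 1), ((D : ℝ) + 2) ^ m := by
        refine Finset.sum_le_sum fun i hi => ?_
        refine (coeff_bd D hk i n).trans ?_
        refine (pow_le_pow_left₀ (by linarith) (by linarith : (D : ℝ) + 1 ≤ D + 2) i).trans ?_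
        exact pow_le_pow_right₀ (by linarith) (Nat.lt_succ_iff.1 (Finset.mem_range.1 hi))
    _ = ((m : ℝ) + 1) * ((D : ℝ) + 2) ^ m := by
        rw [Finset.sum_const, Finset.card_range, nsmul_eq_mul]
        push_cast
        ring
    _ ≤ ((D : ℝ) + 2) ^ m * ((D : ℝ) + 2) ^ m := by
        refine mul_le_mul_of_nonneg_right ?_ (by positivity)
        have h1 : ((m : ℝ) + 1) ≤ 2 ^ m := by
          have : m + 1 ≤ 2 ^ m := Nat.succ_le_of_lt Nat.lt_two_pow_self
          exact_mod_cast this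
        exact h1.trans (pow_le_pow_left₀ (by norm_num) (by linarith) m)
    _ = cst m D := by
        unfold cst
        rw [two_mul, pow_add]

theorem cst_nonneg (m D : ℕ) : 0 ≤ cst m D := by
  unfold cst
  positivity

theorem cst_large (m A D : ℕ) :
    2 * (D : ℝ) + cst m D * 2 ^ (A + 1) ≤ ((D + 2 : ℕ) : ℝ) ^ (2 * m + A + 3) := by
  have hD0 : (0 : ℝ) ≤ D := Nat.cast_nonneg D
  push_cast
  set x : ℝ := (D : ℝ) + 2 with hx
  have hx2 : 2 ≤ x := by rw [hx]; linarith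
  have h1 : cst m D * 2 ^ (A + 1) ≤ x ^ (2 * m + A + 1) := by
    unfold cst
    rw [← hx]
    have h0 : x ^ (2 * m + A + 1) = x ^ (2 * m) * x ^ (A + 1) := by
      rw [← pow_add]
      rfl
    rw [h0]
    exact mul_le_mul_of_nonneg_left (pow_le_pow_left₀ (by norm_num) hx2 _) (by positivity)
  have h2 : x ≤ x ^ (2 * m + A + 1) := by
    calc x = x ^ 1 := (pow_one x).symm
      _ ≤ x ^ (2 * m + A + 1) := pow_le_pow_right₀ (by linarith) (by omega)
  have h3 : x ^ (2 * m + A + 3) = x ^ (2 * m + A + 1) * x ^ 2 := by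
    rw [← pow_add]
  have h4 : (4 : ℝ) ≤ x ^ 2 := by nlinarith
  have h5 : 0 ≤ x ^ (2 * m + A + 1) := by positivity
  rw [h3]
  have h6 : x ^ (2 * m + A + 1) * 4 ≤ x ^ (2 * m + A + 1) * x ^ 2 :=
    mul_le_mul_of_nonneg_left h4 h5
  have h7 : 2 * (D : ℝ) ≤ 2 * x := by rw [hx]; linarith
  linarith

theorem tpq : TpqStmt := by
  intro m A
  refine ⟨2 * m + A + 3, ?_⟩
  intro D w hwP hw' k hk
  have hw : 2 * (D : ℝ) + cst m D * 2 ^ (A + 1) ≤ ‖w‖ := (cst_large m A D).trans hw'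
  obtain ⟨f, hf0, hfm, hfc, hfw⟩ := hwP
  have hc0 := cst_nonneg m D
  have hD0 : (0 : ℝ) ≤ D := Nat.cast_nonneg D
  have hp0 : (0 : ℝ) ≤ cst m D * 2 ^ (A + 1) := by positivity
  have hdeg : (f.comp (X - C k)).natDegree = f.natDegree := by
    rw [natDegree_comp, natDegree_X_sub_C, mul_one]
  refine ⟨f.comp (X - C k), ?_, ?_, ?_, ?_⟩
  · intro h
    apply hf0
    have h1 : (f.comp (X - C k)).comp (X + C k) = f := by
      rw [comp_assoc]
      simp
    rw [← h1, h, zero_comp]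
  · rw [hdeg]
    exact hfm
  · intro n
    have hkR : |(k : ℝ)| ≤ D := by
      exact_mod_cast hk
    have hwk : ‖w‖ / 2 ≤ ‖w + k‖ := by
      have h1 : ‖w‖ ≤ ‖w + k‖ + ‖(k : ℂ)‖ := by
        have := norm_sub_le (w + k) (k : ℂ)
        rwa [add_sub_cancel_right] at this
      have h2 : ‖(k : ℂ)‖ = |(k : ℝ)| := by
        rw [← Complex.ofReal_intCast, Complex.norm_real, Real.norm_eq_abs]
      rw [h2] at h1
      linarith
    have hlow : cst m D * ‖w‖ ^ A ≤ ‖w + k‖ ^ (A + 1) := by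
      have h1 : (‖w‖ / 2) ^ (A + 1) ≤ ‖w + k‖ ^ (A + 1) :=
        pow_le_pow_left₀ (by positivity) hwk _
      have h2 : cst m D * 2 ^ (A + 1) ≤ ‖w‖ := by linarith
      refine le_trans ?_ h1
      rw [div_pow, le_div_iff₀ (by positivity), pow_succ ‖w‖ A]
      calc cst m D * ‖w‖ ^ A * 2 ^ (A + 1) = ‖w‖ ^ A * (cst m D * 2 ^ (A + 1)) := by ring
        _ ≤ ‖w‖ ^ A * ‖w‖ := mul_le_mul_of_nonneg_left h2 (by positivity)
    refine le_trans ?_ hlow
    have hexp : (f.comp (X - C k)).coeff n =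
        ∑ i ∈ Finset.range (m + 1), f.coeff i * ((X - C k : ℤ[X]) ^ i).coeff n := by
      rw [comp, eval₂_eq_sum_range' C (Nat.lt_succ_of_le hfm), finsetSum_coeff]
      refine Finset.sum_congr rfl fun i _ => ?_
      rw [coeff_C_mul]
    rw [hexp]
    push_cast
    calc |∑ i ∈ Finset.range (m + 1), (f.coeff i : ℝ) *
            ((((X - C k : ℤ[X]) ^ i).coeff n : ℤ) : ℝ)|
        ≤ ∑ i ∈ Finset.range (m + 1), |(f.coeff i : ℝ) *
            ((((X - C k : ℤ[X]) ^ i).coeff n : ℤ) : ℝ)| := Finset.abs_sum_le_sum_abs _ _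
      _ ≤ ∑ i ∈ Finset.range (m + 1), ‖w‖ ^ A *
            |((((X - C k : ℤ[X]) ^ i).coeff n : ℤ) : ℝ)| := by
          refine Finset.sum_le_sum fun i _ => ?_
          rw [abs_mul]
          exact mul_le_mul_of_nonneg_right (hfc i) (abs_nonneg _)
      _ = ‖w‖ ^ A * ∑ i ∈ Finset.range (m + 1),
            |((((X - C k : ℤ[X]) ^ i).coeff n : ℤ) : ℝ)| := by rw [Finset.mul_sum]
      _ ≤ ‖w‖ ^ A * cst m D := mul_le_mul_of_nonneg_left (le_cst m D hk) (by positivity)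
      _ = cst m D * ‖w‖ ^ A := mul_comm _ _
  · rw [aeval_comp]
    simp [hfw]

end Pool.Agent.PSV.H45
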