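import Pool.Agent.PSV.StmtsG

/-!
# Squad PSV, row VAL: norms and values near zero
-/

set_option autoImplicit false

namespace Pool.Agent.PSV.H45

open Matrix Polynomial Pool.Agent.MT100 Pool.Agent.MT100G Pool.Agent.MT100.H76
open Pool.Agent.MTN.H21

theorem mono {B B' : ℕ} {f : PowerSeries ℚ} (h : B ≤ B') (hf : GTC B f) : GTC B' f := by
  intro k
  obtain ⟨h1, D, h2, h3, h4⟩ := hf k
  refine ⟨h1.trans ?_, D, h2, h3.trans (Nat.pow_le_pow_left h _), h4⟩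
  have h5 : (B : ℚ) ≤ (B' : ℚ) := by exact_mod_cast h
  exact pow_le_pow_left₀ (Nat.cast_nonneg B) h5 _

theorem cbd {B : ℕ} {f : PowerSeries ℚ} (hf : GTC B f) (k : ℕ) :
    |((PowerSeries.coeff k f : ℚ) : ℝ)| ≤ (B : ℝ) ^ (k + 1) := by
  have h := (hf k).1
  exact_mod_cast h

/-- the geometric series with ratio `B t ≤ 1/2` -/
theorem bd {B : ℕ} {f : PowerSeries ℚ} (hf : GTC B f) {t : ℝ} (ht : 0 ≤ t)
    (hBt : (B : ℝ) * t ≤ 1 / 2) (k : ℕ) :
    |((PowerSeries.coeff k f : ℚ) : ℝ)| * t ^ k ≤ (B : ℝ) * ((B : ℝ) * t) ^ k := by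
  have h1 : |((PowerSeries.coeff k f : ℚ) : ℝ)| * t ^ k ≤ (B : ℝ) ^ (k + 1) * t ^ k :=
    mul_le_mul_of_nonneg_right (cbd hf k) (pow_nonneg ht k)
  refine h1.trans (le_of_eq ?_)
  rw [pow_succ, mul_pow]
  ring

theorem geo {B : ℝ} {x : ℝ} (hx0 : 0 ≤ x) (hx : x ≤ 1 / 2) (hB : 0 ≤ B) :
    Summable (fun k : ℕ => B * x ^ k) ∧ ∑' k : ℕ, B * x ^ k ≤ 2 * B := by
  have h1 : x < 1 := by linarith
  have hs := summable_geometric_of_lt_one hx0 h1
  refine ⟨hs.mul_left B, ?_⟩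
  rw [tsum_mul_left, tsum_geometric_of_lt_one hx0 h1]
  have h2 : (1 - x)⁻¹ ≤ 2 := by
    rw [inv_le_comm₀ (by linarith) (by norm_num)]
    linarith
  calc B * (1 - x)⁻¹ ≤ B * 2 := mul_le_mul_of_nonneg_left h2 hB
    _ = 2 * B := by ring

theorem nm_bd {B : ℕ} {f : PowerSeries ℚ} (hf : GTC B f) {t : ℝ} (ht : 0 ≤ t)
    (hBt : (B : ℝ) * t ≤ 1 / 2) : Sm f t ∧ Nm f t ≤ 2 * B := by
  have hB : (0 : ℝ) ≤ B := Nat.cast_nonneg B
  obtain ⟨h1, h2⟩ := geo (mul_nonneg hB ht) hBt hB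
  have key : ∀ k, |((PowerSeries.coeff k f : ℚ) : ℝ)| * |t| ^ k ≤ (B : ℝ) * ((B : ℝ) * t) ^ k := by
    intro k
    rw [abs_of_nonneg ht]
    exact bd hf ht hBt k
  have hS : Sm f t := Summable.of_nonneg_of_le (fun _ => by positivity) key h1
  refine ⟨hS, ?_⟩
  exact (Summable.tsum_le_tsum key hS h1).trans h2

theorem part2 {B : ℕ} {f : PowerSeries ℚ} (hB : 1 ≤ B) (hf : GTC B f) :
    Sm f (1 / (2 * B)) ∧ Nm f (1 / (2 * B)) ≤ 2 * B := by
  have hB' : (1 : ℝ) ≤ B := by exact_mod_cast hB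
  refine nm_bd hf (by positivity) ?_
  have h0 : (B : ℝ) ≠ 0 := by positivity
  have : (B : ℝ) * (1 / (2 * B)) = 1 / 2 := by
    field_simp
  exact this.le

/-- shift of the sum by one term -/
theorem part3 {B : ℕ} {f : PowerSeries ℚ} (hB : 1 ≤ B) (hf : GTC B f)
    (h1 : 1 ≤ |PowerSeries.constantCoeff f|) {x : ℂ} (hx : ‖x‖ ≤ 1 / (4 * B ^ 2)) :
    evC f x ≠ 0 := by
  have hB' : (1 : ℝ) ≤ B := by exact_mod_cast hB
  have hBx : (B : ℝ) * ‖x‖ ≤ 1 / (4 * B) := by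
    calc (B : ℝ) * ‖x‖ ≤ B * (1 / (4 * B ^ 2)) := mul_le_mul_of_nonneg_left hx (by positivity)
      _ = 1 / (4 * B) := by field_simp
  have h4 : 1 / (4 * (B : ℝ)) ≤ 1 / 4 := by
    apply one_div_le_one_div_of_le (by norm_num)
    linarith
  have hle : (B : ℝ) * ‖x‖ ≤ 1 / 2 := by linarith
  obtain ⟨hS, _⟩ := nm_bd hf (norm_nonneg x) hle
  have hac := ac_of_sm hS
  have hsum : Summable fun k => ((PowerSeries.coeff k f : ℚ) : ℂ) * x ^ k := hac.of_norm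
  have hsplit : evC f x = ((PowerSeries.coeff 0 f : ℚ) : ℂ) * x ^ 0 +
      ∑' k, ((PowerSeries.coeff (k + 1) f : ℚ) : ℂ) * x ^ (k + 1) := by
    unfold evC
    exact hsum.tsum_eq_zero_add
  have hgeo := geo (B := (B : ℝ) * ((B : ℝ) * ‖x‖)) (x := (B : ℝ) * ‖x‖)
    (by positivity) hle (by positivity)
  have key : ∀ k, ‖((PowerSeries.coeff (k + 1) f : ℚ) : ℂ) * x ^ (k + 1)‖ ≤
      (B : ℝ) * ((B : ℝ) * ‖x‖) * ((B : ℝ) * ‖x‖) ^ k := by
    intro k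
    rw [norm_mul, norm_pow, norm_ratC]
    refine (bd hf (norm_nonneg x) hle (k + 1)).trans (le_of_eq ?_)
    rw [pow_succ]
    ring
  have hs2 : Summable fun k => ‖((PowerSeries.coeff (k + 1) f : ℚ) : ℂ) * x ^ (k + 1)‖ :=
    Summable.of_nonneg_of_le (fun _ => norm_nonneg _) key hgeo.1
  have hrest : ‖∑' k, ((PowerSeries.coeff (k + 1) f : ℚ) : ℂ) * x ^ (k + 1)‖ ≤ 1 / 2 := by
    calc ‖∑' k, ((PowerSeries.coeff (k + 1) f : ℚ) : ℂ) * x ^ (k + 1)‖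
        ≤ ∑' k, ‖((PowerSeries.coeff (k + 1) f : ℚ) : ℂ) * x ^ (k + 1)‖ :=
          norm_tsum_le_tsum_norm hs2
      _ ≤ ∑' k, (B : ℝ) * ((B : ℝ) * ‖x‖) * ((B : ℝ) * ‖x‖) ^ k :=
          Summable.tsum_le_tsum key hs2 hgeo.1
      _ ≤ 2 * ((B : ℝ) * ((B : ℝ) * ‖x‖)) := hgeo.2
      _ ≤ 2 * ((B : ℝ) * (1 / (4 * B))) := by
          have := mul_le_mul_of_nonneg_left hBx (show (0 : ℝ) ≤ B by positivity)
          linarith
      _ = 1 / 2 := by field_simp; norm_num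
  intro h0
  rw [hsplit, pow_zero, mul_one] at h0
  have h2 : ‖((PowerSeries.coeff 0 f : ℚ) : ℂ)‖ ≤ 1 / 2 := by
    have h3 : ((PowerSeries.coeff 0 f : ℚ) : ℂ) =
        -∑' k, ((PowerSeries.coeff (k + 1) f : ℚ) : ℂ) * x ^ (k + 1) := eq_neg_of_add_eq_zero_left h0
    rw [h3, norm_neg]
    exact hrest
  rw [norm_ratC, PowerSeries.coeff_zero_eq_constantCoeff_apply] at h2
  have h3 : (1 : ℝ) ≤ |((PowerSeries.constantCoeff f : ℚ) : ℝ)| := by exact_mod_cast h1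
  linarith

theorem aeval_zq (p : ℤ[X]) (x : ℂ) : aeval x (zq p) = ∑ i ∈ Finset.range (p.natDegree + 1),
    ((p.coeff i : ℤ) : ℂ) * x ^ i := by
  rw [aeval_def, zq, eval₂_map, eval₂_eq_sum_range]
  refine Finset.sum_congr rfl fun i _ => ?_
  congr 1

/-- the constant term dominates -/
theorem dom {n B : ℕ} {p : ℤ[X]} (hp : PB n B p) (h0 : p.coeff 0 ≠ 0) {x : ℂ}
    (hx : ‖x‖ * ((n + 1) * B) < 1) : aeval x (zq p) ≠ 0 := by
  have hB0 : (0 : ℝ) ≤ B := Nat.cast_nonneg B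
  have hc : ∀ k, |((p.coeff k : ℤ) : ℝ)| ≤ (B : ℝ) := fun k => by exact_mod_cast hp.2 k
  have h1 : (1 : ℝ) ≤ |((p.coeff 0 : ℤ) : ℝ)| := by
    have := Int.one_le_abs h0
    exact_mod_cast this
  have hB1 : (1 : ℝ) ≤ B := h1.trans (hc 0)
  have hx1 : ‖x‖ ≤ 1 := by
    have h2 : (1 : ℝ) ≤ (n + 1) * B := by
      have h3 : (1 : ℝ) ≤ (n : ℝ) + 1 := by
        have := Nat.cast_nonneg (α := ℝ) n
        linarith
      nlinarith
    have h3 : ‖x‖ * 1 ≤ ‖x‖ * ((n + 1) * B) := mul_le_mul_of_nonneg_left h2 (norm_nonneg x)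
    linarith
  intro hz
  rw [aeval_zq, Finset.sum_range_succ'] at hz
  have h2 : ((p.coeff 0 : ℤ) : ℂ) * x ^ 0 =
      -∑ i ∈ Finset.range p.natDegree, ((p.coeff (i + 1) : ℤ) : ℂ) * x ^ (i + 1) :=
    eq_neg_of_add_eq_zero_right hz
  have h3 : ‖((p.coeff 0 : ℤ) : ℂ)‖ ≤ ∑ i ∈ Finset.range p.natDegree, (B : ℝ) * ‖x‖ := by
    rw [pow_zero, mul_one] at h2
    rw [h2, norm_neg]
    refine (norm_sum_le _ _).trans (Finset.sum_le_sum fun i _ => ?_)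
    rw [norm_mul, norm_pow]
    have h4 : ‖((p.coeff (i + 1) : ℤ) : ℂ)‖ ≤ B := by
      rw [Complex.norm_intCast]
      exact hc _
    have h5 : ‖x‖ ^ (i + 1) ≤ ‖x‖ := by
      calc ‖x‖ ^ (i + 1) ≤ ‖x‖ ^ 1 :=
            pow_le_pow_of_le_one (norm_nonneg x) hx1 (Nat.succ_le_succ (Nat.zero_le i))
        _ = ‖x‖ := pow_one _
    exact mul_le_mul h4 h5 (by positivity) hB0
  rw [Finset.sum_const, Finset.card_range, nsmul_eq_mul, Complex.norm_intCast] at h3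
  have h6 : (p.natDegree : ℝ) ≤ n := by exact_mod_cast hp.1
  have h7 : (p.natDegree : ℝ) * ((B : ℝ) * ‖x‖) ≤ n * ((B : ℝ) * ‖x‖) :=
    mul_le_mul_of_nonneg_right h6 (by positivity)
  have h8 : (n : ℝ) * ((B : ℝ) * ‖x‖) ≤ ‖x‖ * ((n + 1) * B) := by
    have : 0 ≤ ‖x‖ * (B : ℝ) := by positivity
    nlinarith
  linarith

theorem part4 {n B : ℕ} {p : ℤ[X]} (hp : p ≠ 0) (hB : PB n B p) {x : ℂ} (hx : x ≠ 0)
    (h : ‖x‖ * ((n + 1) * B) < 1) : aeval x (zq p) ≠ 0 := by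
  obtain ⟨N, hN⟩ : ∃ N, N = p.natDegree := ⟨_, rfl⟩
  induction N using Nat.strong_induction_on generalizing p with
  | _ N ih =>
    by_cases h0 : p.coeff 0 = 0
    · have h1 : p = X * p.divX := by
        have h2 := Polynomial.X_mul_divX_add p
        rw [h0, map_zero, add_zero] at h2
        exact h2.symm
      have hd : p.divX ≠ 0 := by
        intro h2
        rw [h2, mul_zero] at h1
        exact hp h1
      have hdeg : p.natDegree = p.divX.natDegree + 1 := by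
        conv_lhs => rw [h1]
        rw [natDegree_X_mul hd]
      have hPB : PB n B p.divX := by
        refine ⟨by have := hB.1; omega, fun k => ?_⟩
        rw [Polynomial.coeff_divX]
        exact hB.2 _
      have h3 := ih p.divX.natDegree (by omega) hd hPB rfl
      have h4 : zq p = X * zq p.divX := by
        conv_lhs => rw [h1]
        rw [zq, zq, Polynomial.map_mul, Polynomial.map_X]
      rw [h4, map_mul, aeval_X]
      exact mul_ne_zero hx h3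
    · exact dom hB h0 h

theorem val : ValStmt :=
  ⟨fun _ _ _ h hf => mono h hf, fun _ _ hB hf => part2 hB hf,
    fun _ _ hB hf h1 _ hx => part3 hB hf h1 hx, fun _ _ _ hp hB _ hx h => part4 hp hB hx h⟩

end Pool.Agent.PSV.H45
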